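import Mathlib

set_option autoImplicit false

namespace Pool.Agent.Results.MP_ab03e0_co.Mod4

open Equiv Equiv.Perm

/-- `m` is a quasigroup operation: `a x = b` and `x a = b` have unique solutions. -/
def IsQuasigroup {S : Type} (m : S → S → S) : Prop :=
  ∀ a b, (∃! x, m a x = b) ∧ ∃! x, m x a = b

theorem swap_sign {S : Type} [Fintype S] [DecidableEq S]
    (h : sign (Equiv.prodComm S S : Perm (S × S)) = 1) :
    Fintype.card S % 4 = 0 ∨ Fintype.card S % 4 = 1 := by
  have h2 : (Equiv.prodComm S S : Perm (S × S)) ^ 2 = 1 := by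
    ext x <;> rfl
  rw [sign_of_pow_two_eq_one h2] at h
  have h3 : Fintype.card (Function.fixedPoints (Equiv.prodComm S S : Perm (S × S))) =
      Fintype.card S := by
    refine Fintype.card_congr ⟨fun x => x.1.1, fun a => ⟨(a, a), rfl⟩, ?_, fun a => rfl⟩
    rintro ⟨⟨a, b⟩, hx⟩
    have : b = a := congrArg Prod.fst hx
    subst this
    rfl
  rw [h3, Fintype.card_prod, neg_one_pow_eq_one_iff_even (by decide)] at h
  generalize Fintype.card S = n at h
  obtain ⟨k, hk⟩ := h
  have h4 : n ≤ n * n := Nat.le_mul_self n
  have h5 : (n * n) % 4 = ((n % 4) * (n % 4)) % 4 := Nat.mul_mod _ _ _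
  have : n % 4 = 0 ∨ n % 4 = 1 ∨ n % 4 = 2 ∨ n % 4 = 3 := by omega
  rcases this with h | h | h | h <;> rw [h] at h5 <;> omega

theorem result (S : Type) [Fintype S] [Nonempty S] (m : S → S → S) (hq : IsQuasigroup m)
    (hid : ∀ x y, m (m x y) y = m x (m x y)) :
    Fintype.card S % 4 = 0 ∨ Fintype.card S % 4 = 1 := by
  classical
  have bl : ∀ a, Function.Bijective (m a) := fun a =>
    (Function.bijective_iff_existsUnique _).2 fun b => (hq a b).1
  have br : ∀ a, Function.Bijective fun x => m x a := fun a =>
    (Function.bijective_iff_existsUnique _).2 fun b => (hq a b).2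
  let L : S → Perm S := fun a => Equiv.ofBijective _ (bl a)
  let R : S → Perm S := fun a => Equiv.ofBijective _ (br a)
  have bs : ∀ z, Function.Bijective fun x => (L x).symm z := fun z => by
    refine Finite.injective_iff_bijective.1 fun x x' h => ?_
    have h1 : m ((fun x => x) x) ((L x).symm z) = z := (L x).apply_symm_apply z
    have h2 : m x' ((L x').symm z) = z := (L x').apply_symm_apply z
    have h : (L x).symm z = (L x').symm z := h
    rw [← h] at h2
    exact (br ((L x).symm z)).1 (h1.trans h2.symm)
  let T : S → Perm S := fun z => Equiv.ofBijective _ (bs z)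
  have hT : ∀ z x, m x (T z x) = z := fun z x => (L x).apply_symm_apply z
  have e1 : ∀ z, R z = L z * T z := fun z => by
    ext x
    have := hid x (T z x)
    rw [hT] at this
    exact this.symm
  have e2 : (Equiv.prodCongrLeft T : Perm (S × S)) * Equiv.prodCongrRight L =
      (Equiv.prodComm S S : Perm (S × S)) * Equiv.prodCongrLeft R := by
    ext ⟨x, y⟩
    · exact (L x).symm_apply_apply y
    · rfl
  have e3 := congrArg sign e2
  rw [Perm.sign_mul, Perm.sign_mul, sign_prodCongrLeft, sign_prodCongrLeft, sign_prodCongrRight] at e3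
  simp only [e1, Perm.sign_mul, Finset.prod_mul_distrib] at e3
  rw [mul_comm] at e3
  exact swap_sign (mul_right_cancel (e3.symm.trans (one_mul _).symm))

end Pool.Agent.Results.MP_ab03e0_co.Mod4
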