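import Mathlib

set_option autoImplicit false

namespace Pool.Agent.Results.MP_ab03e0_co.Order17

/-- `m` is a quasigroup operation: `a x = b` and `x a = b` have unique solutions. -/
def IsQuasigroup {S : Type} (m : S → S → S) : Prop :=
  ∀ a b, (∃! x, m a x = b) ∧ ∃! x, m x a = b

def f : Fin 17 → Fin 17 := ![0, 5, 10, 8, 3, 2, 16, 13, 6, 11, 4, 1, 15, 14, 9, 7, 12]

def op (x y : Fin 17) : Fin 17 := x + f (y - x)

theorem l1 : ∀ a x y, op a x = op a y → x = y := by decide +kernel

theorem l2 : ∀ a x y, op x a = op y a → x = y := by decide +kernel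

theorem l3 : ∀ x y, op (op x y) y = op x (op x y) := by decide +kernel

theorem result : ∃ m : Fin 17 → Fin 17 → Fin 17,
    IsQuasigroup m ∧ ∀ x y, m (m x y) y = m x (m x y) := by
  refine ⟨op, fun a b => ⟨?_, ?_⟩, l3⟩
  · exact (Function.bijective_iff_existsUnique _).1 (Finite.injective_iff_bijective.1 (l1 a)) b
  · exact (Function.bijective_iff_existsUnique (fun x => op x a)).1
      (Finite.injective_iff_bijective.1 (l2 a)) b

end Pool.Agent.Results.MP_ab03e0_co.Order17
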